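import Pool.Agent.Helper156_SM.FinU

set_option autoImplicit false

/-!
# MP_fa2474_nt: the error exponent of the shifted moments is at least `1/4` for many shifts, all `k ≥ 1`

Let `Z_{α, β}(t) = ∏_j ζ(1/2 + i(t + α_j)) ζ(1/2 - i(t + β_j))`, and take `α = (u, …, u)`, `β = (-u, …, -u)`. For every
`k ≥ 1` and every `θ < 1/4` there are `L, c > 0` such that in every interval of length `2 L` the real numbers `u` for which
`∫_0^T Z_{α, β}(t) dt` is `M(T) + O(T^θ)` for some admissible main term `M` (depending on `u`) leave out a set of measure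
at least `c`.
-/

open MeasureTheory Set Filter

namespace Pool.Agent.Results.MP_fa2474_nt.ErrorExponentQuarter

/-- `Z_{α, β}(t)`. -/
noncomputable def Z {k : ℕ} (a b : Fin k → ℝ) (t : ℝ) : ℂ :=
  ∏ j, riemannZeta (1 / 2 + Complex.I * (t + a j)) * riemannZeta (1 / 2 - Complex.I * (t + b j))

/-- The main terms that are allowed: functions `M` with two derivatives on `[1, ∞)`, the second one
continuous, such that `M' (t) = O (t ^ δ)` and `M'' (t) = O (t ^ (δ - 1))` for every `δ > 0`. -/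
def IsMainTerm (M : ℝ → ℂ) : Prop :=
  ∃ M' M'' : ℝ → ℂ, (∀ t : ℝ, 1 ≤ t → HasDerivAt M (M' t) t) ∧ (∀ t : ℝ, 1 ≤ t → HasDerivAt M' (M'' t) t) ∧
    ContinuousOn M'' (Ici 1) ∧
    ∀ δ : ℝ, 0 < δ → ∃ C : ℝ, ∀ t : ℝ, 1 ≤ t → ‖M' t‖ ≤ C * t ^ δ ∧ ‖M'' t‖ ≤ C * t ^ (δ - 1)

/-- The integral of `Z_{α, β}` has an asymptotic formula with error term `O (T ^ θ)`. -/
def HasError {k : ℕ} (a b : Fin k → ℝ) (θ : ℝ) : Prop :=
  ∃ M : ℝ → ℂ, IsMainTerm M ∧ ∃ C T₀ : ℝ, ∀ T : ℝ, T₀ ≤ T → ‖(∫ t in (0 : ℝ)..T, Z a b t) - M T‖ ≤ C * T ^ θ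

theorem Z_const (k : ℕ) (u t : ℝ) : Z (fun _ : Fin k => u) (fun _ => -u) t =
    riemannZeta (1 / 2 + (t + u) * Complex.I) ^ k *
      (starRingEnd ℂ) (riemannZeta (1 / 2 + (t - u) * Complex.I)) ^ k := by
  unfold Z
  rw [Finset.prod_const, Finset.card_univ, Fintype.card_fin, mul_pow, ← riemannZeta_conj]
  congr 2
  · congr 1; ring
  · congr 1
    simp only [map_add, map_sub, map_mul, Complex.conj_I, Complex.conj_ofReal, map_div₀, map_one, Complex.conj_ofNat]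
    push_cast
    ring

theorem result (k : ℕ) (hk : 1 ≤ k) (θ : ℝ) (hθ : θ < 1 / 4) :
    ∃ L c : ℝ, 0 < c ∧ c < 2 * L ∧ ∀ u₀ : ℝ,
      volume {u : ℝ | u ∈ Icc (u₀ - L) (u₀ + L) ∧ HasError (fun _ : Fin k => u) (fun _ => -u) θ} ≤
        ENNReal.ofReal (2 * L - c) := by
  obtain ⟨L, c, hc, hcL, h⟩ := Pool.Agent.Helper156_SM.finU hk hθ
  refine ⟨L, c, hc, hcL, fun u₀ => ?_⟩
  refine le_trans (measure_mono ?_) (h u₀)
  rintro u ⟨hu, M, hM, C, T₀, hE⟩
  refine ⟨hu, M, hM, C, T₀, fun T hT => ?_⟩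
  have h1 := hE T hT
  simp only [Z_const] at h1
  exact h1

end Pool.Agent.Results.MP_fa2474_nt.ErrorExponentQuarter
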